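import Pool.Agent.TH783.UB.Ball
import Pool.Agent.TH783.CE.Slice

/-!
# Archimedean unit balls and equations of degree at most three

Let `k` be a number field and let `σ : k → ℂ` be an embedding whose image is not contained in `ℝ`
(for a totally complex field this is every embedding).  We show that the closed unit ball
`B = {x ∈ k | |σ(x)| ≤ 1}` is not a finite union of sets `{x | ∃ z ∈ kⁿ, f(x, z) = 0}` with `f`
over `k` of total degree at most three (any number of unknowns; all singular and reducible cases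
are allowed).  Moreover every such union `D` which is contained in `B` is thin, the set of the
inverses of its nonzero elements is thin, and for every bound there is a larger integer `m` such
that `1/m` is not in `D`.

The proof.  The ball is flat: a rational function in one variable over `k` all of whose values are
in the ball is constant (density of `σ(k)` in `ℂ` and Liouville's theorem for rational functions).
The general theorem of `Pool.Agent.TH783.CE` gives that a union in the ball is thin.  The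
inverses are treated by the same general theorem with the two linear forms exchanged.
-/

set_option autoImplicit false

namespace Pool.Agent.Results.MP_c40b92_nt.CubicEquations

open MvPolynomial Pool.Agent.TH783.CE Pool.Agent.TH783.UB

theorem result :
    -- the closed unit ball is not such a union
    (∀ (k : Type) [Field k] [NumberField k] (σ : k →+* ℂ), (∃ z : k, (σ z).im ≠ 0) →
      ∀ (r : ℕ) (n : Fin r → ℕ) (f : ∀ i, MvPolynomial (Fin (n i + 1)) k),
      (∀ i, (f i).totalDegree ≤ 3) →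
      ¬ ∀ x : k, (∃ i, ∃ z : Fin (n i) → k,
          eval (Fin.cons x z : Fin (n i + 1) → k) (f i) = 0) ↔ ‖σ x‖ ≤ 1) ∧
    -- such unions in the ball are thin and do not contain the inverses of all large integers
    (∀ (k : Type) [Field k] [NumberField k] (σ : k →+* ℂ), (∃ z : k, (σ z).im ≠ 0) →
      ∀ (r : ℕ) (n : Fin r → ℕ) (f : ∀ i, MvPolynomial (Fin (n i + 1)) k),
      (∀ i, (f i).totalDegree ≤ 3) →
      (∀ x : k, (∃ i, ∃ z : Fin (n i) → k,
          eval (Fin.cons x z : Fin (n i + 1) → k) (f i) = 0) → ‖σ x‖ ≤ 1) →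
      Thin {x : k | ∃ i, ∃ z : Fin (n i) → k,
          eval (Fin.cons x z : Fin (n i + 1) → k) (f i) = 0} ∧
      Thin {s : k | s ≠ 0 ∧ ∃ i, ∃ z : Fin (n i) → k,
          eval (Fin.cons s⁻¹ z : Fin (n i + 1) → k) (f i) = 0} ∧
      ∀ B : ℤ, ∃ m : ℤ, B < m ∧ ¬ ∃ i, ∃ z : Fin (n i) → k,
          eval (Fin.cons (m : k)⁻¹ z : Fin (n i + 1) → k) (f i) = 0) := by
  have main : ∀ (k : Type) [Field k] [NumberField k] (σ : k →+* ℂ), (∃ z : k, (σ z).im ≠ 0) →
      ∀ (r : ℕ) (n : Fin r → ℕ) (f : ∀ i, MvPolynomial (Fin (n i + 1)) k),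
      (∀ i, (f i).totalDegree ≤ 3) →
      (∀ x : k, (∃ i, ∃ z : Fin (n i) → k,
          eval (Fin.cons x z : Fin (n i + 1) → k) (f i) = 0) → ‖σ x‖ ≤ 1) →
      Thin {x : k | ∃ i, ∃ z : Fin (n i) → k,
          eval (Fin.cons x z : Fin (n i + 1) → k) (f i) = 0} ∧
      Thin {s : k | s ≠ 0 ∧ ∃ i, ∃ z : Fin (n i) → k,
          eval (Fin.cons s⁻¹ z : Fin (n i + 1) → k) (f i) = 0} ∧
      ∀ B : ℤ, ∃ m : ℤ, B < m ∧ ¬ ∃ i, ∃ z : Fin (n i) → k,
          eval (Fin.cons (m : k)⁻¹ z : Fin (n i + 1) → k) (f i) = 0 := by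
    rintro k _ _ σ ⟨w, hw⟩ r n f hf h
    have h1 : {x : k | ∃ i, ∃ z : Fin (n i) → k,
          eval (Fin.cons x z : Fin (n i + 1) → k) (f i) = 0} =
        ⋃ i ∈ (Set.univ : Set (Fin r)), {x : k | ∃ z : Fin (n i) → k,
          eval (Fin.cons x z : Fin (n i + 1) → k) (f i) = 0} := by
      ext x
      simp
    have h2 : {s : k | s ≠ 0 ∧ ∃ i, ∃ z : Fin (n i) → k,
          eval (Fin.cons s⁻¹ z : Fin (n i + 1) → k) (f i) = 0} =
        ⋃ i ∈ (Set.univ : Set (Fin r)), {s : k | s ≠ 0 ∧ ∃ z : Fin (n i) → k,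
          eval (Fin.cons s⁻¹ z : Fin (n i + 1) → k) (f i) = 0} := by
      ext x
      simp
    have hthin : Thin {s : k | s ≠ 0 ∧ ∃ i, ∃ z : Fin (n i) → k,
        eval (Fin.cons s⁻¹ z : Fin (n i + 1) → k) (f i) = 0} := by
      rw [h2]
      refine Thin.biUnion Set.finite_univ fun i _ => ?_
      refine thin_affine_inv (flat_coball σ hw) (Or.inl rfl) _ (hf i) fun t z ht hz => Or.inr ?_
      have h3 := h t ⟨i, z, hz⟩
      rw [map_inv₀, norm_inv]
      refine (one_le_inv₀ (norm_pos_iff.2 ?_)).2 h3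
      rw [Ne, map_eq_zero_iff σ σ.injective]
      exact ht
    refine ⟨?_, hthin, fun B => ?_⟩
    · rw [h1]
      refine Thin.biUnion Set.finite_univ fun i _ => ?_
      exact thin_affine (flat_ball σ hw) _ (hf i) fun x z hz => h x ⟨i, z, hz⟩
    · obtain ⟨m, hm, hm'⟩ := hthin.exists_int (max B 0)
      refine ⟨m, (le_max_left _ _).trans_lt hm, fun h3 => hm' ⟨?_, h3⟩⟩
      exact Int.cast_ne_zero.2 ((le_max_right _ _).trans_lt hm).ne'
  refine ⟨fun k _ _ σ hσ r n f hf hiff => ?_, main⟩
  obtain ⟨-, -, h2⟩ := main k σ hσ r n f hf (fun x hx => (hiff x).1 hx)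
  obtain ⟨m, hm, hm'⟩ := h2 1
  refine hm' ((hiff _).2 ?_)
  rw [map_inv₀, map_intCast, norm_inv]
  refine inv_le_one_of_one_le₀ ?_
  rw [Complex.norm_intCast]
  exact_mod_cast (hm.le.trans (le_abs_self m))

end Pool.Agent.Results.MP_c40b92_nt.CubicEquations
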